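import Pool.Graph.R_pool_sql_team_seeded_843ab51a.Results.MP_e1ef61_al.NotQuasivariety

/-! A countable amiable semigroup avoiding `F` whose ultrapower contains `F`. -/

set_option autoImplicit false

open FirstOrder Filter Pool.Agent.Results.MP_e1ef61_al.NotQuasivariety
open FirstOrder.Language.Structure (funMap)

namespace Pool.Agent.KS6_17.AM

/-- The operation symbols `·`, `ℓ`, `r`. -/
inductive Fn : ℕ → Type
  | mul : Fn 2
  | l : Fn 1
  | r : Fn 1

/-- The first-order language of algebras of type `⟨2, 1, 1⟩`. -/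
def Lang : FirstOrder.Language.{0, 0} := ⟨Fn, fun _ => Empty⟩

/-- A structure of the language, as an algebra. -/
def toAlg (M : Type) [Lang.Structure M] : Alg where
  carrier := M
  mul x y := funMap (L := Lang) Fn.mul ![x, y]
  l x := funMap (L := Lang) Fn.l ![x]
  r x := funMap (L := Lang) Fn.r ![x]

/-- Quasi-identities which imply amiability. -/
structure Good (A : Alg) : Prop where
  assoc : ∀ x y z, A.mul (A.mul x y) z = A.mul x (A.mul y z)
  ll : ∀ x, A.mul (A.l x) (A.l x) = A.l x
  rr : ∀ x, A.mul (A.r x) (A.r x) = A.r x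
  l1 : ∀ x u v, A.mul x u = A.mul x v ↔ A.mul (A.l x) u = A.mul (A.l x) v
  l2 : ∀ x u, A.mul x u = x ↔ A.mul (A.l x) u = A.l x
  r1 : ∀ x u v, A.mul u x = A.mul v x ↔ A.mul u (A.r x) = A.mul v (A.r x)
  r2 : ∀ x u, A.mul u x = x ↔ A.mul u (A.r x) = A.r x
  el : ∀ e f, A.mul e f = e → A.mul f e = f → e = f
  er : ∀ e f, A.mul e f = f → A.mul f e = e → e = f

theorem Good.amiable {A : Alg} (h : Good A) : IsAmiable A where
  assoc := h.assoc
  existsUnique_l x := by
    refine ⟨A.l x, ⟨h.ll x, fun u v => h.l1 x u v, fun u => h.l2 x u⟩, ?_⟩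
    rintro e ⟨he, hxe⟩
    exact h.el _ _ ((hxe.2 _).1 ((h.l2 _ _).2 (h.ll x))) ((h.l2 _ _).1 ((hxe.2 e).2 he))
  existsUnique_r x := by
    refine ⟨A.r x, ⟨h.rr x, fun u v => h.r1 x u v, fun u => h.r2 x u⟩, ?_⟩
    rintro e ⟨he, hxe⟩
    exact h.er _ _ ((h.r2 _ _).1 ((hxe.2 e).2 he)) ((hxe.2 _).1 ((h.r2 _ _).2 (h.rr x)))
  l_spec x := ⟨h.ll x, fun u v => h.l1 x u v, fun u => h.l2 x u⟩
  r_spec x := ⟨h.rr x, fun u v => h.r1 x u v, fun u => h.r2 x u⟩

/-- Order-preserving extensive maps of `ℕ` with finitely many moved points. -/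
def S : Type := {f : ℕ → ℕ // Monotone f ∧ (∀ i, i ≤ f i) ∧ ∃ N, ∀ i ≥ N, f i = i}

namespace S

theorem ext {f g : S} (h : ∀ i, f.1 i = g.1 i) : f = g := Subtype.ext (funext h)

/-- Composition. -/
def comp (f g : S) : S := ⟨f.1 ∘ g.1, f.2.1.comp g.2.1, fun i => (g.2.2.1 i).trans (f.2.2.1 _), by
  obtain ⟨N, hN⟩ := f.2.2.2
  obtain ⟨M, hM⟩ := g.2.2.2
  refine ⟨max N M, fun i hi => ?_⟩
  show f.1 (g.1 i) = i
  rw [hM i ((le_max_right _ _).trans hi), hN i ((le_max_left _ _).trans hi)]⟩

/-- The largest point with the same image. -/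
def tp (f : S) (i : ℕ) : ℕ := Nat.findGreatest (fun j => f.1 j = f.1 i) (f.1 i)

theorem f_tp (f : S) (i : ℕ) : f.1 (f.tp i) = f.1 i :=
  Nat.findGreatest_spec (P := fun j => f.1 j = f.1 i) (f.2.2.1 i) rfl

theorem le_tp (f : S) (i : ℕ) : i ≤ f.tp i := Nat.le_findGreatest (f.2.2.1 i) rfl

theorem tp_congr (f : S) {i j : ℕ} (h : f.1 i = f.1 j) : f.tp i = f.tp j := by
  simp only [tp, h]

theorem tp_eq_iff (f : S) (i j : ℕ) : f.tp i = f.tp j ↔ f.1 i = f.1 j :=
  ⟨fun h => by rw [← f.f_tp i, ← f.f_tp j, h], f.tp_congr⟩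

/-- The idempotent `f_ℓ`. -/
def top (f : S) : S := ⟨f.tp, by
    intro i j hij
    rcases (f.2.1 hij).eq_or_lt with h | h
    · rw [f.tp_congr h]
    · by_contra c
      have := f.2.1 (not_le.1 c).le
      rw [f.f_tp, f.f_tp] at this
      omega,
  f.le_tp, by
    obtain ⟨N, hN⟩ := f.2.2.2
    refine ⟨N, fun i hi => le_antisymm ?_ (f.le_tp i)⟩
    have := f.2.2.1 (f.tp i)
    rwa [f.f_tp, hN i hi] at this⟩

theorem ex (f : S) (i : ℕ) : ∃ k, i ≤ k ∧ k ∈ Set.range f.1 := ⟨f.1 i, f.2.2.1 i, i, rfl⟩

open Classical in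
/-- The least element of the image above. -/
noncomputable def u (f : S) (i : ℕ) : ℕ := Nat.find (f.ex i)

theorem le_u (f : S) (i : ℕ) : i ≤ f.u i := by
  classical
  exact (Nat.find_spec (f.ex i)).1

theorem u_mem (f : S) (i : ℕ) : f.u i ∈ Set.range f.1 := by
  classical
  exact (Nat.find_spec (f.ex i)).2

theorem u_le (f : S) {i k : ℕ} (h : i ≤ k) (hk : k ∈ Set.range f.1) : f.u i ≤ k := by
  classical
  exact Nat.find_min' (f.ex i) ⟨h, hk⟩

theorem u_of_mem (f : S) {i : ℕ} (h : i ∈ Set.range f.1) : f.u i = i :=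
  le_antisymm (f.u_le le_rfl h) (f.le_u i)

/-- The idempotent `f_r`. -/
noncomputable def up (f : S) : S := ⟨f.u, fun i j hij => f.u_le (hij.trans (f.le_u j)) (f.u_mem j),
  f.le_u, by
    obtain ⟨N, hN⟩ := f.2.2.2
    exact ⟨N, fun i hi => f.u_of_mem ⟨i, hN i hi⟩⟩⟩

end S

noncomputable instance : Lang.Structure S where
  funMap {_} f v := match f, v with
    | Fn.mul, v => S.comp (v 0) (v 1)
    | Fn.l, v => S.top (v 0)
    | Fn.r, v => S.up (v 0)
  RelMap {_} r _ := r.elim

theorem good_S : Good (toAlg S) where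
  assoc x y z := rfl
  ll x := S.ext fun i => (S.tp_eq_iff x _ _).2 (S.f_tp x i)
  rr x := S.ext fun i => S.u_of_mem x (S.u_mem x i)
  l1 x u v := by
    constructor
    · intro h
      exact S.ext fun i => (S.tp_eq_iff x _ _).2 (congrFun (congrArg Subtype.val h) i)
    · intro h
      exact S.ext fun i => (S.tp_eq_iff x _ _).1 (congrFun (congrArg Subtype.val h) i)
  l2 x u := by
    constructor
    · intro h
      exact S.ext fun i => (S.tp_eq_iff x _ _).2 (congrFun (congrArg Subtype.val h) i)
    · intro h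
      exact S.ext fun i => (S.tp_eq_iff x _ _).1 (congrFun (congrArg Subtype.val h) i)
  r1 x u v := by
    constructor
    · intro h
      refine S.ext fun i => ?_
      obtain ⟨j, hj⟩ := S.u_mem x i
      show u.1 (S.u x i) = v.1 (S.u x i)
      rw [← hj]
      exact congrFun (congrArg Subtype.val h) j
    · intro h
      refine S.ext fun i => ?_
      show u.1 (x.1 i) = v.1 (x.1 i)
      have := congrFun (congrArg Subtype.val h) (x.1 i)
      change u.1 (S.u x (x.1 i)) = v.1 (S.u x (x.1 i)) at this
      rwa [S.u_of_mem x ⟨i, rfl⟩] at this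
  r2 x u := by
    constructor
    · intro h
      refine S.ext fun i => ?_
      obtain ⟨j, hj⟩ := S.u_mem x i
      show u.1 (S.u x i) = S.u x i
      rw [← hj]
      exact congrFun (congrArg Subtype.val h) j
    · intro h
      refine S.ext fun i => ?_
      show u.1 (x.1 i) = x.1 i
      have := congrFun (congrArg Subtype.val h) (x.1 i)
      change u.1 (S.u x (x.1 i)) = S.u x (x.1 i) at this
      rwa [S.u_of_mem x ⟨i, rfl⟩] at this
  el e f h1 h2 := by
    refine S.ext fun i => le_antisymm ?_ ?_
    · have := congrFun (congrArg Subtype.val h2) i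
      change f.1 (e.1 i) = f.1 i at this
      rw [← this]
      exact f.2.2.1 _
    · have := congrFun (congrArg Subtype.val h1) i
      change e.1 (f.1 i) = e.1 i at this
      rw [← this]
      exact e.2.2.1 _
  er e f h1 h2 := by
    refine S.ext fun i => le_antisymm ?_ ?_
    · have := congrFun (congrArg Subtype.val h1) i
      change e.1 (f.1 i) = f.1 i at this
      rw [← this]
      exact e.2.1 (f.2.2.1 i)
    · have := congrFun (congrArg Subtype.val h2) i
      change f.1 (e.1 i) = e.1 i at this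
      rw [← this]
      exact f.2.1 (e.2.2.1 i)

theorem avoids_S : AvoidsF (toAlg S) := by
  rintro ⟨ψ, hm, hi⟩
  obtain ⟨N₀, h0⟩ := (ψ ((FreeSemigroup.of false : FreeSemigroup Bool) : F)).2.2.2
  obtain ⟨N₁, h1⟩ := (ψ ((FreeSemigroup.of true : FreeSemigroup Bool) : F)).2.2.2
  have key : ∀ w : FreeSemigroup Bool, ∀ i ≥ max N₀ N₁, (ψ (w : F)).1 i = i := by
    intro w
    induction w using FreeSemigroup.recOnMul with
    | ih1 c =>
      intro i hi
      cases c
      · exact h0 i ((le_max_left _ _).trans hi)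
      · exact h1 i ((le_max_right _ _).trans hi)
    | ih2 c w h2 h3 =>
      intro i hi
      rw [Con.coe_mul, hm]
      show (ψ _).1 ((ψ _).1 i) = i
      rw [h3 i hi, h2 i hi]
  obtain ⟨N, hN⟩ : ∃ N, N = max N₀ N₁ := ⟨_, rfl⟩
  rw [← hN] at key
  have key' : ∀ x : F, ∀ i ≥ N, (ψ x).1 i = i := fun x => by
    induction x using Con.induction_on with
    | H w => exact key w
  have le : ∀ (x : F) (i : Fin N), (ψ x).1 i < N + 1 := fun x i => by
    have := (ψ x).2.1 (show (i : ℕ) ≤ N from i.2.le)
    rw [key' x N le_rfl] at this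
    omega
  have : Finite F := Finite.of_injective
    (fun (x : F) (i : Fin N) => (⟨(ψ x).1 i, le x i⟩ : Fin (N + 1))) fun x y h => hi (S.ext fun i => by
      by_cases c : i < N
      · exact congrArg Fin.val (congrFun h ⟨i, c⟩)
      · rw [key' x i (not_lt.1 c), key' y i (not_lt.1 c)])
  exact infinite_F.not_finite this

/-- The ultrapower. -/
abbrev U : Type := (hyperfilter ℕ : Filter ℕ).Product fun _ : ℕ => S

/-- the class of a sequence -/
noncomputable def mk (x : ℕ → S) : U := @Quotient.mk' _ ((hyperfilter ℕ : Filter ℕ).productSetoid fun _ : ℕ => S) x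

theorem mk_eq (x y : ℕ → S) : mk x = mk y ↔
    ∀ᶠ n in (hyperfilter ℕ : Filter ℕ), x n = y n :=
  @Quotient.eq'' _ ((hyperfilter ℕ : Filter ℕ).productSetoid fun _ : ℕ => S) x y

theorem mk_eq' (x y : ℕ → S) : @Eq (toAlg U).carrier (mk x) (mk y) ↔
    ∀ᶠ n in (hyperfilter ℕ : Filter ℕ), x n = y n := mk_eq x y

theorem mul_mk (x y : ℕ → S) : (toAlg U).mul (mk x) (mk y) = mk fun n => S.comp (x n) (y n) := by
  have := FirstOrder.Language.Ultraproduct.funMap_cast (L := Lang) (u := hyperfilter ℕ)
    (M := fun _ : ℕ => S) Fn.mul ![x, y]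
  show funMap (L := Lang) (M := U) Fn.mul ![mk x, mk y] = _
  refine (congrArg (funMap (L := Lang) (M := U) Fn.mul) (funext fun i => ?_)).trans this
  fin_cases i <;> rfl

theorem l_mk (x : ℕ → S) : (toAlg U).l (mk x) = mk fun n => S.top (x n) := by
  have := FirstOrder.Language.Ultraproduct.funMap_cast (L := Lang) (u := hyperfilter ℕ)
    (M := fun _ : ℕ => S) Fn.l ![x]
  show funMap (L := Lang) (M := U) Fn.l ![mk x] = _
  refine (congrArg (funMap (L := Lang) (M := U) Fn.l) (funext fun i => ?_)).trans this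
  fin_cases i; rfl

theorem r_mk (x : ℕ → S) : (toAlg U).r (mk x) = mk fun n => S.up (x n) := by
  have := FirstOrder.Language.Ultraproduct.funMap_cast (L := Lang) (u := hyperfilter ℕ)
    (M := fun _ : ℕ => S) Fn.r ![x]
  show funMap (L := Lang) (M := U) Fn.r ![mk x] = _
  refine (congrArg (funMap (L := Lang) (M := U) Fn.r) (funext fun i => ?_)).trans this
  fin_cases i; rfl

theorem ind {P : U → Prop} (h : ∀ x : ℕ → S, P (mk x)) : ∀ x : U, P x :=
  fun x => @Quotient.inductionOn' _ ((hyperfilter ℕ : Filter ℕ).productSetoid fun _ : ℕ => S) _ x h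

theorem good_U : Good (toAlg U) where
  assoc := by
    refine ind fun x => ?_
    refine ind fun y => ?_
    refine ind fun z => ?_
    simp only [mul_mk]
    rfl
  ll := by
    refine ind fun x => ?_
    simp only [mul_mk, l_mk, mk_eq']
    exact Eventually.of_forall fun n => good_S.ll (x n)
  rr := by
    refine ind fun x => ?_
    simp only [mul_mk, r_mk, mk_eq']
    exact Eventually.of_forall fun n => good_S.rr (x n)
  l1 := by
    refine ind fun x => ?_
    refine ind fun y => ?_
    refine ind fun z => ?_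
    simp only [mul_mk, l_mk, mk_eq']
    exact eventually_congr (Eventually.of_forall fun n => good_S.l1 (x n) (y n) (z n))
  l2 := by
    refine ind fun x => ?_
    refine ind fun y => ?_
    simp only [mul_mk, l_mk, mk_eq']
    exact eventually_congr (Eventually.of_forall fun n => good_S.l2 (x n) (y n))
  r1 := by
    refine ind fun x => ?_
    refine ind fun y => ?_
    refine ind fun z => ?_
    simp only [mul_mk, r_mk, mk_eq']
    exact eventually_congr (Eventually.of_forall fun n => good_S.r1 (x n) (y n) (z n))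
  r2 := by
    refine ind fun x => ?_
    refine ind fun y => ?_
    simp only [mul_mk, r_mk, mk_eq']
    exact eventually_congr (Eventually.of_forall fun n => good_S.r2 (x n) (y n))
  el := by
    refine ind fun x => ?_
    refine ind fun y => ?_
    simp only [mul_mk, mk_eq']
    intro h1 h2
    filter_upwards [h1, h2] with n a b using good_S.el _ _ a b
  er := by
    refine ind fun x => ?_
    refine ind fun y => ?_
    simp only [mul_mk, mk_eq']
    intro h1 h2
    filter_upwards [h1, h2] with n a b using good_S.er _ _ a b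

/-- Extension by the identity. -/
def emb (n : ℕ) (f : C n) : S := ⟨fun i => if h : i < n + 1 then (f.1 ⟨i, h⟩).val else i, by
    intro i j hij
    by_cases h : j < n + 1
    · simp only [h, hij.trans_lt h, dif_pos]
      exact f.2.1 hij
    · by_cases h' : i < n + 1
      · simp only [h, h', dif_pos, dif_neg, not_false_eq_true]
        have := (f.1 ⟨i, h'⟩).2
        omega
      · simp only [h, h', dif_neg, not_false_eq_true]
        exact hij, by
    intro i
    by_cases h : i < n + 1
    · simp only [h, dif_pos]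
      exact f.2.2 ⟨i, h⟩
    · simp only [h, dif_neg, not_false_eq_true, le_refl], n + 1, fun i hi => by
      simp only [not_lt.2 hi, dif_neg, not_false_eq_true]⟩

theorem emb_comp (n : ℕ) (f g : C n) : emb n (f.comp g) = (emb n f).comp (emb n g) := by
  refine S.ext fun i => ?_
  show (emb n (f.comp g)).1 i = (emb n f).1 ((emb n g).1 i)
  by_cases h : i < n + 1
  · have h' : (g.1 ⟨i, h⟩).val < n + 1 := (g.1 ⟨i, h⟩).2
    simp only [emb, h, h', dif_pos]
    rfl
  · simp only [emb, h, dif_neg, not_false_eq_true]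

theorem emb_inj (n : ℕ) : Function.Injective (emb n) := by
  intro f g h
  refine Subtype.ext (funext fun i => Fin.ext ?_)
  have := congrFun (congrArg Subtype.val h) i.val
  simpa only [emb, i.2, dif_pos] using this

theorem alt_inj' (c d : Bool) (L M n : ℕ) (hn : L + M + 2 ≤ n)
    (h : φ (alt c L) n = φ (alt d M) n) : c = d ∧ L = M := by
  have h0 := congrArg (fun x => (x.1 ⟨0, by omega⟩).val) h
  have h1 := congrArg (fun x => (x.1 ⟨1, by omega⟩).val) h
  cases c <;> cases d
  · rw [alt_val false L _ _ rfl (by simp only; omega),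
      alt_val false M _ _ rfl (by simp only; omega)] at h0
    exact ⟨rfl, by omega⟩
  · rw [alt_val false L _ _ rfl (by simp only; omega),
      alt_val' true M _ _ (by simp) (by simp only; omega)] at h0
    rw [alt_val' false L _ _ (by simp) (by simp only; omega),
      alt_val true M _ _ rfl (by simp only; omega)] at h1
    simp only at h0 h1
    omega
  · rw [alt_val' true L _ _ (by simp) (by simp only; omega),
      alt_val false M _ _ rfl (by simp only; omega)] at h0
    rw [alt_val true L _ _ rfl (by simp only; omega),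
      alt_val' false M _ _ (by simp) (by simp only; omega)] at h1
    simp only at h0 h1
    omega
  · rw [alt_val true L _ _ rfl (by simp only; omega),
      alt_val true M _ _ rfl (by simp only; omega)] at h1
    exact ⟨rfl, by omega⟩

theorem not_avoids_U : ¬ AvoidsF (toAlg U) := by
  refine not_not.2 ⟨fun x => mk fun n => emb n (φ x n), fun x y => ?_,
    fun x y h => ?_⟩
  · rw [mul_mk, mk_eq']
    refine Eventually.of_forall fun n => ?_
    rw [← emb_comp, φ_mul]
    rfl
  · induction x using Con.induction_on with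
    | H v =>
    induction y using Con.induction_on with
    | H w =>
    obtain ⟨c, L, h1⟩ := exists_alt v
    obtain ⟨d, M, h2⟩ := exists_alt w
    rw [h1, h2] at h ⊢
    replace h := (mk_eq' _ _).1 h
    have h3 : ∀ᶠ n in (hyperfilter ℕ : Filter ℕ), L + M + 2 ≤ n := by
      refine Filter.Eventually.filter_mono (hyperfilter_le_cofinite) ?_
      rw [Nat.cofinite_eq_atTop]
      exact eventually_ge_atTop _
    obtain ⟨n, h4, h5⟩ := (h.and h3).exists
    obtain ⟨rfl, rfl⟩ := alt_inj' c d L M n h5 (emb_inj n h4)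
    rfl

instance : Nonempty S := ⟨⟨id, monotone_id, fun _ => le_rfl, 0, fun _ _ => rfl⟩⟩

theorem countable_S : Countable S := by
  let ρ : S → ℕ × List ℕ := fun f => (f.2.2.2.choose, (List.range f.2.2.2.choose).map f.1)
  refine Function.Injective.countable (f := ρ) fun f g h => S.ext fun i => ?_
  have h1 : f.2.2.2.choose = g.2.2.2.choose := congrArg Prod.fst h
  have h2 : (List.range f.2.2.2.choose).map f.1 = (List.range g.2.2.2.choose).map g.1 :=
    congrArg Prod.snd h
  by_cases c : i < f.2.2.2.choose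
  · rw [← h1] at h2
    exact List.map_inj_left.1 h2 i (List.mem_range.2 c)
  · rw [f.2.2.2.choose_spec i (not_lt.1 c), g.2.2.2.choose_spec i (h1 ▸ not_lt.1 c)]

theorem elem : Lang.ElementarilyEquivalent S U := by
  rw [FirstOrder.Language.elementarilyEquivalent_iff]
  intro σ
  rw [FirstOrder.Language.Ultraproduct.sentence_realize, eventually_const]

end Pool.Agent.KS6_17.AM
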